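import Pool.Agent.Helper11.TP.CBnd

/-!
# Cones over conic bundles which contain a constant line
-/

set_option autoImplicit false

namespace Pool.Agent.Helper71.W7

open Pool.Agent.Helper29.CQ Pool.Agent.Helper65.CC Pool.Agent.Helper87.CC
  Pool.Agent.Helper65.CC.KFn Pool.Agent.Helper49.QP
open Pool.Agent.Helper9.QP (A4)
open Pool.Agent.Helper9.TP (CB)
open Pool.Agent.Helper71.CP (ev)
open Pool.Agent.Helper49.TP (mem_A2_cls mem_cls_zero Hom2)
open Pool.Agent.Helper11.TP
open Polynomial

variable {K : Type} [Field K] {G : ∀ (R : Type) [CommRing R] [Algebra K R], Prop}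

/-! ### Graphs -/

/-- `a(t) y + g = 0` -/
noncomputable def Gr (F : KFn K) (t g : Coord F) (a : K[X]) : KFn K :=
  F.line.cls ⟨fun x => aeval (t.val x.1) a * x.2 + g.val x.1, fun f x => by
    change f (_ * _ + _) = aeval (t.val (F.map f x.1)) a * f x.2 + g.val (F.map f x.1)
    rw [map_add, map_mul, ← aeval_algHom_apply, t.nat, g.nat]⟩

/-- the base coordinate -/
noncomputable def Gr.t (F : KFn K) (t g : Coord F) (a : K[X]) : Coord (Gr F t g a) where
  val x := t.val x.1.1
  nat f x := t.nat f x.1.1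

theorem aeval_const (a : K[X]) {s : K} {R : Type} [CommRing R] [Algebra K R] {t : R}
    (h : t - algebraMap K R s = 0) : aeval t a = algebraMap K R (a.eval s) := by
  rw [sub_eq_zero.1 h, aeval_algebraMap_apply, coe_aeval_eq_eval]

theorem mem_graph [IsAlgClosed K] (hG : GOps K G) (F : KFn K) [Rp F] (t g : Coord F) (a : K[X])
    (h1 : F.Mem G) (h2 : ∀ s, (F.cls (subC t s)).Mem G) (h3 : (F.cls g).Mem G)
    (h4 : ∀ s, ((F.cls (subC t s)).cls (resC _ g)).Mem G) : (Gr F t g a).Mem G := by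
  by_cases ha : a = 0
  · refine Mem.of_iso (F' := (F.cls g).line) ?_ (Mem.line hG.toKOps h3)
    subst ha
    exact
      { hom := fun {R} _ _ x => (⟨x.1.1, by
          have e : aeval (t.val x.1.1) (0 : K[X]) * x.1.2 + g.val x.1.1 = 0 := x.2
          rw [map_zero, zero_mul, zero_add] at e
          exact e⟩, x.1.2)
        inv := fun {R} _ _ y => ⟨(y.1.1, y.2), by
          have e : g.val y.1.1 = 0 := y.1.2
          change aeval (t.val y.1.1) (0 : K[X]) * y.2 + g.val y.1.1 = 0
          rw [map_zero, zero_mul, zero_add, e]⟩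
        inv_hom := fun _ => rfl
        hom_inv := fun _ => rfl
        nat := fun _ _ => rfl }
  · refine mem_fibres hG.toKOps _ _ (Gr.t F t g a) a ha rfl (fun s => ?_) ?_
    · by_cases hs : a.eval s = 0
      · refine Mem.of_iso (F' := ((F.cls (subC t s)).cls (resC _ g)).line) ?_
          (Mem.line hG.toKOps (h4 s))
        exact
          { hom := fun {R} _ _ x => (⟨⟨x.1.1.1, x.2⟩, by
              have e : aeval (t.val x.1.1.1) a * x.1.1.2 + g.val x.1.1.1 = 0 := x.1.2
              have e' : t.val x.1.1.1 - algebraMap K R s = 0 := x.2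
              rw [aeval_const a e', hs, map_zero, zero_mul, zero_add] at e
              exact e⟩, x.1.1.2)
            inv := fun {R} _ _ y => ⟨⟨(y.1.1.1, y.2), by
              have e : g.val y.1.1.1 = 0 := y.1.2
              change aeval (t.val y.1.1.1) a * y.2 + g.val y.1.1.1 = 0
              rw [aeval_const a y.1.1.2, hs, map_zero, zero_mul, zero_add, e]⟩, y.1.1.2⟩
            inv_hom := fun _ => rfl
            hom_inv := fun _ => rfl
            nat := fun _ _ => rfl }
      · refine Mem.of_iso (F' := F.cls (subC t s)) ?_ (h2 s)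
        have hu : ∀ (R : Type) [CommRing R] [Algebra K R],
            algebraMap K R (a.eval s) * algebraMap K R (a.eval s)⁻¹ = 1 := by
          intro R _ _
          rw [← map_mul, mul_inv_cancel₀ hs, map_one]
        exact
          { hom := fun {R} _ _ x => ⟨x.1.1.1, x.2⟩
            inv := fun {R} _ _ y => ⟨⟨(y.1, -(algebraMap K R (a.eval s)⁻¹ * g.val y.1)), by
              change aeval (t.val y.1) a * -(algebraMap K R (a.eval s)⁻¹ * g.val y.1) +
                g.val y.1 = 0
              rw [aeval_const a y.2]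
              linear_combination (-(g.val y.1)) * hu R⟩, y.2⟩
            inv_hom := fun {R} _ _ x => by
              have e : aeval (t.val x.1.1.1) a * x.1.1.2 + g.val x.1.1.1 = 0 := x.1.2
              have e' : t.val x.1.1.1 - algebraMap K R s = 0 := x.2
              rw [aeval_const a e'] at e
              refine Subtype.ext (Subtype.ext (Prod.ext rfl ?_))
              change -(algebraMap K R (a.eval s)⁻¹ * g.val x.1.1.1) = x.1.1.2
              linear_combination x.1.1.2 * hu R - algebraMap K R (a.eval s)⁻¹ * e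
            hom_inv := fun _ => rfl
            nat := fun {R S} _ _ _ _ f x => rfl }
    · refine Mem.of_iso (F' := F.opn (polyC t a)) ?_ (mem_opn_poly hG.toKOps F t a ha h1 h2)
      exact
        { hom := fun {R} _ _ x => ⟨x.1.1.1, x.2⟩
          inv := fun {R} _ _ y => ⟨⟨(y.1, -(Ring.inverse (aeval (t.val y.1) a) * g.val y.1)), by
            change aeval (t.val y.1) a * -(Ring.inverse (aeval (t.val y.1) a) * g.val y.1) +
              g.val y.1 = 0
            have hu : aeval (t.val y.1) a * Ring.inverse (aeval (t.val y.1) a) = 1 :=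
              Ring.mul_inverse_cancel _ y.2
            linear_combination (-(g.val y.1)) * hu⟩, y.2⟩
          inv_hom := fun {R} _ _ x => by
            have e : aeval (t.val x.1.1.1) a * x.1.1.2 + g.val x.1.1.1 = 0 := x.1.2
            have hu : aeval (t.val x.1.1.1) a * Ring.inverse (aeval (t.val x.1.1.1) a) = 1 :=
              Ring.mul_inverse_cancel _ x.2
            refine Subtype.ext (Subtype.ext (Prod.ext rfl ?_))
            change -(Ring.inverse (aeval (t.val x.1.1.1) a) * g.val x.1.1.1) = x.1.1.2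
            linear_combination x.1.1.2 * hu - Ring.inverse (aeval (t.val x.1.1.1) a) * e
          hom_inv := fun _ => rfl
          nat := fun {R S} _ _ _ _ f x => rfl }

/-! ### Families of lines and planes -/

/-- the base coordinates -/
def t1 (K : Type) [Field K] : Coord (A1 K) := ⟨fun x => x, fun _ _ => rfl⟩
def t2 (K : Type) [Field K] : Coord (A2 K) := ⟨fun x => x.1, fun _ _ => rfl⟩
def t3 (K : Type) [Field K] : Coord (A3 K) := ⟨fun x => x.1, fun _ _ => rfl⟩

theorem mem_A1_fib (hG : GOps K G) (s : K) : ((A1 K).cls (subC (t1 K) s)).Mem G := by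
  refine Mem.of_iso (F' := pnt K) ?_ (mem_pnt hG)
  exact
    { hom := fun _ => ()
      inv := fun {R} _ _ _ => ⟨algebraMap K R s, sub_self _⟩
      inv_hom := fun {R} _ _ x => Subtype.ext (sub_eq_zero.1 x.2).symm
      hom_inv := fun _ => rfl
      nat := fun _ _ => rfl }

theorem mem_A2_fib (hG : GOps K G) (s : K) : ((A2 K).cls (subC (t2 K) s)).Mem G := by
  refine Mem.of_iso (F' := A1 K) ?_ (mem_A1 hG)
  exact
    { hom := fun x => x.1.2
      inv := fun {R} _ _ y => ⟨(algebraMap K R s, y), sub_self _⟩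
      inv_hom := fun {R} _ _ x => Subtype.ext (Prod.ext (sub_eq_zero.1 x.2).symm rfl)
      hom_inv := fun _ => rfl
      nat := fun _ _ => rfl }

theorem mem_A3_fib (hG : GOps K G) (s : K) : ((A3 K).cls (subC (t3 K) s)).Mem G := by
  refine Mem.of_iso (F' := A2 K) ?_ (mem_A2 hG)
  exact
    { hom := fun x => x.1.2
      inv := fun {R} _ _ y => ⟨(algebraMap K R s, y), sub_self _⟩
      inv_hom := fun {R} _ _ x => Subtype.ext (Prod.ext (sub_eq_zero.1 x.2).symm rfl)
      hom_inv := fun _ => rfl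
      nat := fun _ _ => rfl }

/-- `α(t) x` on the plane -/
noncomputable def g2 (α : K[X]) : Coord (A2 K) :=
  ⟨fun x => aeval x.1 α * x.2, fun f x => by
    rw [map_mul, ← aeval_algHom_apply]
    rfl⟩

/-- `α(t) x + β(t) y` on the space -/
noncomputable def g3 (α β : K[X]) : Coord (A3 K) :=
  ⟨fun x => aeval x.1 α * x.2.1 + aeval x.1 β * x.2.2, fun f x => by
    rw [map_add, map_mul, map_mul, ← aeval_algHom_apply, ← aeval_algHom_apply]
    rfl⟩

/-- the coordinate zero -/
def z1 (K : Type) [Field K] : Coord (A1 K) :=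
  ⟨fun {R} _ _ _ => (0 : R), fun {R S} _ _ _ _ f _ => (map_zero f : f (0 : R) = (0 : S))⟩

theorem mem_g2 [IsAlgClosed K] (hG : GOps K G) (α : K[X]) : ((A2 K).cls (g2 α)).Mem G := by
  refine Mem.of_iso (F' := Gr (A1 K) (t1 K) (z1 K) α) ?_ (mem_graph hG _ _ _ _ (mem_A1 hG)
    (mem_A1_fib hG) (mem_cls_zero _ _ (fun _ _ _ _ => rfl) (mem_A1 hG))
    (fun s => mem_cls_zero _ _ (fun _ _ _ _ => rfl) (mem_A1_fib hG s)))
  exact
    { hom := fun {R} _ _ x => ⟨x.1, by
        have e : aeval x.1.1 α * x.1.2 = 0 := x.2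
        change aeval x.1.1 α * x.1.2 + 0 = 0
        rw [e, add_zero]⟩
      inv := fun {R} _ _ y => ⟨y.1, by
        have e : aeval (A := R) y.1.1 α * y.1.2 + (0 : R) = 0 := y.2
        rw [add_zero] at e
        exact e⟩
      inv_hom := fun _ => rfl
      hom_inv := fun _ => rfl
      nat := fun _ _ => rfl }

theorem mem_g2_fib [IsAlgClosed K] (hG : GOps K G) (α : K[X]) (s : K) :
    (((A2 K).cls (subC (t2 K) s)).cls (resC _ (g2 α))).Mem G := by
  by_cases hs : α.eval s = 0
  · refine mem_cls_zero _ _ (fun R _ _ x => ?_) (mem_A2_fib hG s)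
    have e' : x.1.1 - algebraMap K R s = 0 := x.2
    change aeval x.1.1 α * x.1.2 = 0
    rw [aeval_const α e', hs, map_zero, zero_mul]
  · refine Mem.of_iso (F' := pnt K) ?_ (mem_pnt hG)
    exact
      { hom := fun _ => ()
        inv := fun {R} _ _ _ => ⟨⟨(algebraMap K R s, 0), sub_self _⟩, mul_zero _⟩
        inv_hom := fun {R} _ _ x => by
          have e' : x.1.1.1 - algebraMap K R s = 0 := x.1.2
          have e : aeval x.1.1.1 α * x.1.1.2 = 0 := x.2
          rw [aeval_const α e'] at e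
          have hu : algebraMap K R (α.eval s)⁻¹ * algebraMap K R (α.eval s) = 1 := by
            rw [← map_mul, inv_mul_cancel₀ hs, map_one]
          refine Subtype.ext (Subtype.ext (Prod.ext (sub_eq_zero.1 e').symm ?_))
          change 0 = x.1.1.2
          linear_combination x.1.1.2 * hu - algebraMap K R (α.eval s)⁻¹ * e
        hom_inv := fun _ => rfl
        nat := fun _ _ => rfl }

theorem mem_g3 [IsAlgClosed K] (hG : GOps K G) (α β : K[X]) : ((A3 K).cls (g3 α β)).Mem G := by
  refine Mem.of_iso (F' := Gr (A2 K) (t2 K) (g2 α) β) ?_ (mem_graph hG _ _ _ _ (mem_A2 hG)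
    (mem_A2_fib hG) (mem_g2 hG α) (mem_g2_fib hG α))
  exact
    { hom := fun {R} _ _ x => ⟨((x.1.1, x.1.2.1), x.1.2.2), by
        have e : aeval x.1.1 α * x.1.2.1 + aeval x.1.1 β * x.1.2.2 = 0 := x.2
        change aeval x.1.1 β * x.1.2.2 + aeval x.1.1 α * x.1.2.1 = 0
        rw [add_comm]
        exact e⟩
      inv := fun {R} _ _ y => ⟨(y.1.1.1, y.1.1.2, y.1.2), by
        have e : aeval y.1.1.1 β * y.1.2 + aeval y.1.1.1 α * y.1.1.2 = 0 := y.2
        change aeval y.1.1.1 α * y.1.1.2 + aeval y.1.1.1 β * y.1.2 = 0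
        rw [add_comm]
        exact e⟩
      inv_hom := fun _ => rfl
      hom_inv := fun _ => rfl
      nat := fun _ _ => rfl }

theorem mem_g3_fib [IsAlgClosed K] (hG : GOps K G) (α β : K[X]) (s : K) :
    (((A3 K).cls (subC (t3 K) s)).cls (resC _ (g3 α β))).Mem G := by
  let u : Coord (A2 K) := ⟨fun {R} _ _ x => algebraMap K R (α.eval s) * x.1 +
    algebraMap K R (β.eval s) * x.2, fun f x => by
    rw [map_add, map_mul, map_mul, AlgHom.commutes, AlgHom.commutes]
    rfl⟩
  refine Mem.of_iso (F' := (A2 K).cls u) ?_ (mem_A2_cls hG u (m := 1) ?_)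
  · exact
      { hom := fun {R} _ _ x => ⟨x.1.1.2, by
          have e' : x.1.1.1 - algebraMap K R s = 0 := x.1.2
          have e : aeval x.1.1.1 α * x.1.1.2.1 + aeval x.1.1.1 β * x.1.1.2.2 = 0 := x.2
          rw [aeval_const α e', aeval_const β e'] at e
          exact e⟩
        inv := fun {R} _ _ y => ⟨⟨(algebraMap K R s, y.1), sub_self _⟩, by
          have e : algebraMap K R (α.eval s) * y.1.1 + algebraMap K R (β.eval s) * y.1.2 = 0 := y.2
          change aeval (algebraMap K R s) α * y.1.1 + aeval (algebraMap K R s) β * y.1.2 = 0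
          rw [aeval_const α (sub_self _), aeval_const β (sub_self _)]
          exact e⟩
        inv_hom := fun {R} _ _ x => by
          have e' : x.1.1.1 - algebraMap K R s = 0 := x.1.2
          exact Subtype.ext (Subtype.ext (Prod.ext (sub_eq_zero.1 e').symm rfl))
        hom_inv := fun _ => rfl
        nat := fun _ _ => rfl }
  · intro R _ _ t x y
    change algebraMap K R (α.eval s) * (t * x) + algebraMap K R (β.eval s) * (t * y) =
      t ^ 1 * (algebraMap K R (α.eval s) * x + algebraMap K R (β.eval s) * y)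
    ring

theorem mem_g4 [IsAlgClosed K] (hG : GOps K G) (α β γ : K[X]) :
    (Gr (A3 K) (t3 K) (g3 α β) γ).Mem G :=
  mem_graph hG _ _ _ _ (mem_A3 hG) (mem_A3_fib hG) (mem_g3 hG α β) (mem_g3_fib hG α β)

instance (α β γ : K[X]) : Rp (Gr (A3 K) (t3 K) (g3 α β) γ) := by
  unfold Gr
  infer_instance

/-! ### The product of a constant and a variable linear form -/

/-- `z (α(t) x + β(t) y + γ(t) z) = 0` -/
theorem mem_Z [IsAlgClosed K] (hG : GOps K G) (α β γ : K[X]) :
    (QB ![0, 0, 0, α, β, γ]).Mem G := by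
  have key : ∀ (R : Type) [CommRing R] [Algebra K R] (t x y z : R),
      te (aeval t ((![0, 0, 0, α, β, γ] : Fin 6 → K[X]) 0))
        (aeval t ((![0, 0, 0, α, β, γ] : Fin 6 → K[X]) 1))
        (aeval t ((![0, 0, 0, α, β, γ] : Fin 6 → K[X]) 2))
        (aeval t ((![0, 0, 0, α, β, γ] : Fin 6 → K[X]) 3))
        (aeval t ((![0, 0, 0, α, β, γ] : Fin 6 → K[X]) 4))
        (aeval t ((![0, 0, 0, α, β, γ] : Fin 6 → K[X]) 5)) x y z =
      z * (aeval t γ * z + (aeval t α * x + aeval t β * y)) := by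
    intro R _ _ t x y z
    change te (aeval t (0 : K[X])) (aeval t (0 : K[X])) (aeval t (0 : K[X])) (aeval t α)
      (aeval t β) (aeval t γ) x y z = _
    unfold te
    rw [map_zero]
    ring
  let z : Coord (QB (![0, 0, 0, α, β, γ] : Fin 6 → K[X])) := ⟨fun x => x.1.2.2.1, fun _ _ => rfl⟩
  let z' : Coord (Gr (A3 K) (t3 K) (g3 α β) γ) := ⟨fun x => x.1.2, fun _ _ => rfl⟩
  refine Mem.glue hG.toKOps z ?_ ?_
  · refine Mem.of_iso (F' := (Gr (A3 K) (t3 K) (g3 α β) γ).opn z') ?_
      (mem_opn hG.toKOps z' (mem_g4 hG α β γ) ?_)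
    · exact
        { hom := fun {R} _ _ x => ⟨⟨((x.1.1.2.2.2, x.1.1.1, x.1.1.2.1), x.1.1.2.2.1), by
            have e := (key R _ _ _ _).symm.trans x.1.2
            have hz : IsUnit x.1.1.2.2.1 := x.2
            exact (hz.mul_right_eq_zero).1 e⟩, x.2⟩
          inv := fun {R} _ _ y => ⟨⟨(y.1.1.1.2.1, y.1.1.1.2.2, y.1.1.2, y.1.1.1.1), by
            have e : aeval y.1.1.1.1 γ * y.1.1.2 + (aeval y.1.1.1.1 α * y.1.1.1.2.1 +
              aeval y.1.1.1.1 β * y.1.1.1.2.2) = 0 := y.1.2
            refine (key R _ _ _ _).trans ?_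
            rw [e, mul_zero]⟩, y.2⟩
          inv_hom := fun _ => rfl
          hom_inv := fun _ => rfl
          nat := fun _ _ => rfl }
    · refine Mem.of_iso (F' := (A3 K).cls (g3 α β)) ?_ (mem_g3 hG α β)
      exact
        { hom := fun {R} _ _ x => ⟨x.1.1.1, by
            have e : aeval x.1.1.1.1 γ * x.1.1.2 + (aeval x.1.1.1.1 α * x.1.1.1.2.1 +
              aeval x.1.1.1.1 β * x.1.1.1.2.2) = 0 := x.1.2
            have e' : x.1.1.2 = 0 := x.2
            rw [e', mul_zero, zero_add] at e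
            exact e⟩
          inv := fun {R} _ _ y => ⟨⟨(y.1, 0), by
            have e : aeval y.1.1 α * y.1.2.1 + aeval y.1.1 β * y.1.2.2 = 0 := y.2
            change aeval y.1.1 γ * 0 + (aeval y.1.1 α * y.1.2.1 + aeval y.1.1 β * y.1.2.2) = 0
            rw [mul_zero, zero_add, e]⟩, rfl⟩
          inv_hom := fun {R} _ _ x => by
            have e' : x.1.1.2 = 0 := x.2
            exact Subtype.ext (Subtype.ext (Prod.ext rfl e'.symm))
          hom_inv := fun _ => rfl
          nat := fun _ _ => rfl }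
  · refine Mem.of_iso (F' := A3 K) ?_ (mem_A3 hG)
    exact
      { hom := fun {R} _ _ x => (x.1.1.2.2.2, x.1.1.1, x.1.1.2.1)
        inv := fun {R} _ _ y => ⟨⟨(y.2.1, y.2.2, 0, y.1), by
          refine (key R _ _ _ _).trans ?_
          rw [zero_mul]⟩, rfl⟩
        inv_hom := fun {R} _ _ x => by
          have e' : x.1.1.2.2.1 = 0 := x.2
          exact Subtype.ext (Subtype.ext (Prod.ext rfl (Prod.ext rfl (Prod.ext e'.symm rfl))))
        hom_inv := fun _ => rfl
        nat := fun _ _ => rfl }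

/-- the coefficients of the product -/
noncomputable def pq (l : Fin 3 → K) (m : Fin 3 → K[X]) : Fin 6 → K[X] :=
  ![C (l 0) * m 0, C (l 0) * m 1 + C (l 1) * m 0, C (l 1) * m 1, C (l 0) * m 2 + C (l 2) * m 0,
    C (l 1) * m 2 + C (l 2) * m 1, C (l 2) * m 2]

theorem tq_pq (l : Fin 3 → K) (m : Fin 3 → K[X]) {R : Type} [CommRing R] [Algebra K R]
    (t x y z : R) : tq (pq l m) t x y z =
      (algebraMap K R (l 0) * x + algebraMap K R (l 1) * y + algebraMap K R (l 2) * z) *
      (aeval t (m 0) * x + aeval t (m 1) * y + aeval t (m 2) * z) := by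
  change te (aeval t (C (l 0) * m 0)) (aeval t (C (l 0) * m 1 + C (l 1) * m 0))
    (aeval t (C (l 1) * m 1)) (aeval t (C (l 0) * m 2 + C (l 2) * m 0))
    (aeval t (C (l 1) * m 2 + C (l 2) * m 1)) (aeval t (C (l 2) * m 2)) x y z = _
  unfold te
  simp only [map_add, map_mul, aeval_C]
  ring

theorem mem_pq2 [IsAlgClosed K] (hG : GOps K G) (l : Fin 3 → K) (m : Fin 3 → K[X])
    (hl : l 2 ≠ 0) : (QB (pq l m)).Mem G := by
  refine Mem.of_iso (F' := QB ![0, 0, 0, m 0 - C ((l 2)⁻¹ * l 0) * m 2,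
    m 1 - C ((l 2)⁻¹ * l 1) * m 2, C (l 2)⁻¹ * m 2]) ?_ (mem_Z hG _ _ _)
  have hi : ∀ (R : Type) [CommRing R] [Algebra K R],
      algebraMap K R (l 2)⁻¹ * algebraMap K R (l 2) = 1 := by
    intro R _ _
    rw [← map_mul, inv_mul_cancel₀ hl, map_one]
  have key : ∀ (R : Type) [CommRing R] [Algebra K R] (t x y z : R),
      tq (![0, 0, 0, m 0 - C ((l 2)⁻¹ * l 0) * m 2, m 1 - C ((l 2)⁻¹ * l 1) * m 2,
        C (l 2)⁻¹ * m 2] : Fin 6 → K[X]) t x y z =
      z * (aeval t (m 0) * x + aeval t (m 1) * y + aeval t (m 2) *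
        (algebraMap K R (l 2)⁻¹ * (z - algebraMap K R (l 0) * x - algebraMap K R (l 1) * y))) := by
    intro R _ _ t x y z
    change te (aeval t (0 : K[X])) (aeval t (0 : K[X])) (aeval t (0 : K[X]))
      (aeval t (m 0 - C ((l 2)⁻¹ * l 0) * m 2)) (aeval t (m 1 - C ((l 2)⁻¹ * l 1) * m 2))
      (aeval t (C (l 2)⁻¹ * m 2)) x y z = _
    unfold te
    simp only [map_sub, map_mul, aeval_C, map_zero]
    ring
  exact
    { hom := fun {R} _ _ x => ⟨(x.1.1, x.1.2.1, algebraMap K R (l 0) * x.1.1 +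
        algebraMap K R (l 1) * x.1.2.1 + algebraMap K R (l 2) * x.1.2.2.1, x.1.2.2.2), by
        have e := (tq_pq l m x.1.2.2.2 x.1.1 x.1.2.1 x.1.2.2.1).symm.trans x.2
        refine (key R _ _ _ _).trans ?_
        refine Eq.trans ?_ e
        congr 1
        linear_combination (aeval x.1.2.2.2 (m 2) * x.1.2.2.1) * hi R⟩
      inv := fun {R} _ _ y => ⟨(y.1.1, y.1.2.1, algebraMap K R (l 2)⁻¹ * (y.1.2.2.1 -
        algebraMap K R (l 0) * y.1.1 - algebraMap K R (l 1) * y.1.2.1), y.1.2.2.2), by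
        have e := (key R y.1.2.2.2 y.1.1 y.1.2.1 y.1.2.2.1).symm.trans y.2
        refine (tq_pq l m _ _ _ _).trans ?_
        refine Eq.trans ?_ e
        congr 1
        linear_combination (y.1.2.2.1 - algebraMap K R (l 0) * y.1.1 -
          algebraMap K R (l 1) * y.1.2.1) * hi R⟩
      inv_hom := fun {R} _ _ x => by
        refine Subtype.ext (Prod.ext rfl (Prod.ext rfl (Prod.ext ?_ rfl)))
        change algebraMap K R (l 2)⁻¹ * (algebraMap K R (l 0) * x.1.1 +
          algebraMap K R (l 1) * x.1.2.1 + algebraMap K R (l 2) * x.1.2.2.1 -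
          algebraMap K R (l 0) * x.1.1 - algebraMap K R (l 1) * x.1.2.1) = x.1.2.2.1
        linear_combination x.1.2.2.1 * hi R
      hom_inv := fun {R} _ _ y => by
        refine Subtype.ext (Prod.ext rfl (Prod.ext rfl (Prod.ext ?_ rfl)))
        change algebraMap K R (l 0) * y.1.1 + algebraMap K R (l 1) * y.1.2.1 +
          algebraMap K R (l 2) * (algebraMap K R (l 2)⁻¹ * (y.1.2.2.1 -
          algebraMap K R (l 0) * y.1.1 - algebraMap K R (l 1) * y.1.2.1)) = y.1.2.2.1
        linear_combination (y.1.2.2.1 - algebraMap K R (l 0) * y.1.1 -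
          algebraMap K R (l 1) * y.1.2.1) * hi R
      nat := fun {R S} _ _ _ _ f x => by
        refine Subtype.ext (Prod.ext rfl (Prod.ext rfl (Prod.ext ?_ rfl)))
        change f (algebraMap K R (l 0) * x.1.1 + algebraMap K R (l 1) * x.1.2.1 +
          algebraMap K R (l 2) * x.1.2.2.1) = algebraMap K S (l 0) * f x.1.1 +
          algebraMap K S (l 1) * f x.1.2.1 + algebraMap K S (l 2) * f x.1.2.2.1
        simp only [map_add, map_mul, AlgHom.commutes] }

theorem mem_pq [IsAlgClosed K] (hG : GOps K G) (l : Fin 3 → K) (m : Fin 3 → K[X]) :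
    (QB (pq l m)).Mem G := by
  by_cases h2 : l 2 = 0
  · by_cases h1 : l 1 = 0
    · by_cases h0 : l 0 = 0
      · refine mem_cls_zero _ _ (fun R _ _ x => ?_) (Pool.Agent.Helper9.QP.mem_A4 hG)
        refine (tq_pq l m x.2.2.2 x.1 x.2.1 x.2.2.1).trans ?_
        rw [h0, h1, h2, map_zero]
        ring
      · refine Mem.of_iso (QB.sxz _) ?_
        have e : (![pq l m 5, pq l m 4, pq l m 2, pq l m 3, pq l m 1, pq l m 0] : Fin 6 → K[X]) =
            pq ![l 2, l 1, l 0] ![m 2, m 1, m 0] := by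
          simp [pq, add_comm]
        rw [e]
        exact mem_pq2 hG _ _ h0
    · refine Mem.of_iso (QB.syz _) ?_
      have e : (![pq l m 0, pq l m 3, pq l m 5, pq l m 1, pq l m 4, pq l m 2] : Fin 6 → K[X]) =
          pq ![l 0, l 2, l 1] ![m 0, m 2, m 1] := by
        simp [pq, add_comm]
      rw [e]
      exact mem_pq2 hG _ _ h1
  · exact mem_pq2 hG l m h2

theorem exists_lf {H : MvPolynomial (Fin 3) K} (hH : H.IsHomogeneous 1) :
    ∃ a : Fin 3 → K, ∀ (R : Type) [CommRing R] [Algebra K R] (x y z : R), ev H x y z =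
      algebraMap K R (a 0) * x + algebraMap K R (a 1) * y + algebraMap K R (a 2) * z := by
  refine ⟨![MvPolynomial.coeff (Pool.Agent.Helper71.CQ.T 1 0 0) H,
    MvPolynomial.coeff (Pool.Agent.Helper71.CQ.T 0 1 0) H,
    MvPolynomial.coeff (Pool.Agent.Helper71.CQ.T 0 0 1) H], ?_⟩
  intro R _ _ x y z
  unfold Pool.Agent.Helper71.CP.ev
  rw [Pool.Agent.Helper71.CQ.hom_sum hH]
  simp [Finset.sum_range_succ]
  ring

/-- **(C3')** a common line -/
theorem cb_line [IsAlgClosed K] (hG : GOps K G) (l m₀ m₁ m₂ : MvPolynomial (Fin 3) K)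
    (hl : l.IsHomogeneous 1) (h₀ : m₀.IsHomogeneous 1) (h₁ : m₁.IsHomogeneous 1)
    (h₂ : m₂.IsHomogeneous 1) (i j : ℕ) (c : K) : (CB (l * m₀) (l * m₁) (l * m₂) i j c).Mem G := by
  obtain ⟨a, ha⟩ := exists_lf hl
  obtain ⟨b₀, hb₀⟩ := exists_lf h₀
  obtain ⟨b₁, hb₁⟩ := exists_lf h₁
  obtain ⟨b₂, hb₂⟩ := exists_lf h₂
  refine CB.of_QB hG _ _ _ i j c (pq a fun n => C (b₀ n) - X ^ j * C (b₁ n) +
    C c * X ^ (i + j) * C (b₂ n)) ?_ (mem_pq hG _ _)
  intro R _ _ t x y z
  rw [tq_pq, Pool.Agent.Helper71.CP.ev_mul, Pool.Agent.Helper71.CP.ev_mul,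
    Pool.Agent.Helper71.CP.ev_mul, ha, hb₀, hb₁, hb₂]
  simp only [map_add, map_sub, map_mul, map_pow, aeval_C, aeval_X]
  ring

end Pool.Agent.Helper71.W7
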